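import Pool.Agent.Y34.EL.Stm

/-!
Project EL (helper34), part DP: existence of dual rays.
-/

set_option autoImplicit false

universe u v

open Metric Set Filter Topology
open Pool.Agent.TH60.FP Pool.Agent.Y34.HB Pool.Agent.Y34.EL

namespace Pool.Agent.Y73.EL

variable {X : Type u} [MetricSpace X]

theorem on_smul {G : Type v} [Group G] [MulAction G X] [IsIsometricSMul G X] (g : G) {o p y : X}
    {t : ℝ} (h : On o p t y) : On (g • o) (g • p) t (g • y) := by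
  unfold On at *
  simp only [dist_smul]
  exact h

theorem ray_dist {o : X} {c : ℝ → X} (hc : Ray o c) {t : ℝ} (ht : 0 ≤ t) : dist o (c t) = t := by
  calc dist o (c t) = dist (c 0) (c t) := by rw [hc.1]
    _ = |0 - t| := hc.2 0 t le_rfl ht
    _ = t := by rw [zero_sub, abs_neg, abs_of_nonneg ht]

theorem on_ray {o : X} {c : ℝ → X} (hc : Ray o c) {t s : ℝ} (ht : 0 ≤ t) (hts : t ≤ s) :
    On o (c s) t (c t) := by
  refine ⟨ray_dist hc ht, ?_⟩
  rw [ray_dist hc (ht.trans hts), hc.2 t s ht (ht.trans hts), abs_sub_comm,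
    abs_of_nonneg (sub_nonneg.2 hts)]

/-- segments to points at bounded distance from the points of a ray -/
theorem near [ProperSpace X] (h2 : S_CMP.{u}) (hX : CN X) {o : X} {c : ℝ → X}
    (hc : Ray o c) (q : ℕ → X) (B : ℝ) (hq : ∀ n : ℕ, dist (q n) (c n) ≤ B) (t ε : ℝ)
    (ht : 0 ≤ t) (hε : 0 < ε) :
    ∀ᶠ n in (hyperfilter ℕ : Filter ℕ), ∀ y, On o (q n) t y → dist y (c t) ≤ ε := by
  refine Nat.hyperfilter_le_atTop ?_
  have hB : 0 ≤ B := dist_nonneg.trans (hq 0)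
  obtain ⟨N, hN⟩ := exists_nat_ge (t + 2 * B + (2 * (t * B) / ε + 1))
  show ∀ᶠ n in atTop, ∀ y, On o (q n) t y → dist y (c t) ≤ ε
  filter_upwards [eventually_ge_atTop N] with n hn y hy
  have hnN : (N : ℝ) ≤ n := by exact_mod_cast hn
  have h0 : 0 ≤ 2 * (t * B) / ε := by positivity
  have h1 : t ≤ n := by linarith
  have h3 : 2 * B ≤ n := by linarith
  have h4 : 2 * (t * B) / ε + 1 ≤ n := by linarith
  have hn0 : (0 : ℝ) ≤ n := Nat.cast_nonneg n
  have h5 := (h2 X hX).1 o (q n) (c n) t y (c t) hy (on_ray hc ht h1)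
  rw [ray_dist hc hn0] at h5
  have h6 : (n : ℝ) - B ≤ dist o (q n) := by
    have h7 := dist_triangle o (q n) (c n)
    rw [ray_dist hc hn0] at h7
    linarith [hq n]
  have h7 : (n : ℝ) / 2 ≤ dist o (q n) := by linarith
  have h8 : dist (q n) (c n) ^ 2 ≤ B ^ 2 := pow_le_pow_left₀ dist_nonneg (hq n) 2
  have h9 : dist y (c t) ^ 2 * ((n : ℝ) / 2 * n) ≤ t ^ 2 * B ^ 2 := by
    calc dist y (c t) ^ 2 * ((n : ℝ) / 2 * n) ≤ dist y (c t) ^ 2 * (dist o (q n) * n) := by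
          gcongr
      _ ≤ _ := h5
      _ ≤ t ^ 2 * B ^ 2 := by
          apply mul_le_mul_of_nonneg_left _ (sq_nonneg t)
          linarith [sq_nonneg (dist o (q n) - n)]
  by_contra h10
  push Not at h10
  have h11 : ε ^ 2 ≤ dist y (c t) ^ 2 := pow_le_pow_left₀ hε.le h10.le 2
  have h12 : 2 * (t * B) + ε ≤ ε * n := by
    have := mul_le_mul_of_nonneg_left h4 hε.le
    rw [mul_add, mul_one, mul_div_cancel₀ _ hε.ne'] at this
    exact this
  have h13 : ε ^ 2 * ((n : ℝ) / 2 * n) ≤ t ^ 2 * B ^ 2 :=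
    (mul_le_mul_of_nonneg_right h11 (by positivity)).trans h9
  have h14 : 0 ≤ t * B := mul_nonneg ht hB
  have h15 : (2 * (t * B) + ε) ^ 2 ≤ (ε * n) ^ 2 := pow_le_pow_left₀ (by positivity) h12 2
  nlinarith [mul_nonneg h14 hε.le, mul_pos hε hε, sq_nonneg (t * B)]

theorem tend {a : ℕ → ℝ} {B : ℝ} (h : ∀ n : ℕ, (n : ℝ) - B ≤ a n) :
    Tendsto a (hyperfilter ℕ : Filter ℕ) atTop := by
  refine Tendsto.mono_left ?_ Nat.hyperfilter_le_atTop
  refine tendsto_atTop_mono h ?_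
  exact tendsto_atTop_add_const_right _ _ tendsto_natCast_atTop_atTop

/-- one instance of duality -/
theorem dual1 [ProperSpace X] {G : Type v} [Group G] [MulAction G X]
    (h2 : S_CMP.{u}) (hX : CN X) {o : X} {c : ℝ → X} (hc : Ray o c) (g : ℕ → G) (B : ℝ)
    (hg : ∀ n : ℕ, dist (g n • o) (c n) ≤ B) (t : ℝ) (ht : 0 < t) (z : X)
    (h : ∀ᶠ n in (hyperfilter ℕ : Filter ℕ), ∀ y, On o ((g n)⁻¹ • o) t y → dist y z ≤ 1) :
    ∃ g : G, t ≤ dist o (g • o) ∧ (∀ y, On o (g • o) t y → dist y (c t) ≤ 1) ∧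
      ∀ y, On o (g⁻¹ • o) t y → dist y z ≤ 1 := by
  have h3 : Tendsto (fun n => dist o (g n • o)) (hyperfilter ℕ : Filter ℕ) atTop := by
    apply tend (B := B)
    intro n
    have h7 := dist_triangle o (g n • o) (c n)
    rw [ray_dist hc (Nat.cast_nonneg n)] at h7
    linarith [hg n]
  obtain ⟨n, h4, h5, h6⟩ := (((tendsto_atTop.1 h3 t).and
    (near h2 hX hc (fun n => g n • o) B hg t 1 ht.le one_pos)).and h).exists.imp
      (fun n h => (⟨h.1.1, h.1.2, h.2⟩ : _ ∧ _ ∧ _))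
  exact ⟨g n, h4, h5, h6⟩

theorem t_DP (h1 : S_STEW.{u}) (h2 : S_CMP.{u}) (h3 : S_TRI.{u}) (h4 : S_LRAY.{u}) :
    S_DP.{u, v} := by
  intro X _ G _ _ hG o c₁ c₂ hc₁ hc₂
  have := hG.proper
  have := hG.isom
  have hX := hG.cn
  obtain ⟨K, hK, hKG⟩ := hG.cc
  obtain ⟨D, hD⟩ : ∃ D : ℝ, ∀ x : X, ∃ γ : G, dist (γ • o) x ≤ D := by
    obtain ⟨D, hD⟩ := hK.isBounded.subset_closedBall o
    refine ⟨D, fun x => ?_⟩
    obtain ⟨g, hg⟩ := hKG x
    refine ⟨g⁻¹, ?_⟩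
    have h := hD hg
    rw [mem_closedBall] at h
    rw [← dist_smul g (g⁻¹ • o) x, smul_inv_smul, dist_comm]
    exact h
  choose γ hγ using fun n : ℕ => hD (c₁ n)
  choose β hβ using fun n : ℕ => hD (c₂ n)
  have hinv : ∀ g : G, dist o (g⁻¹ • o) = dist o (g • o) := by
    intro g
    rw [← dist_smul g o (g⁻¹ • o), smul_inv_smul, dist_comm]
  have hγd : ∀ n : ℕ, (n : ℝ) - D ≤ dist o ((γ n)⁻¹ • o) := by
    intro n
    rw [hinv]
    have h7 := dist_triangle o (γ n • o) (c₁ n)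
    rw [ray_dist hc₁ (Nat.cast_nonneg n)] at h7
    linarith [hγ n]
  have hβd : ∀ n : ℕ, (n : ℝ) - D ≤ dist o ((β n)⁻¹ • o) := by
    intro n
    rw [hinv]
    have h7 := dist_triangle o (β n • o) (c₂ n)
    rw [ray_dist hc₂ (Nat.cast_nonneg n)] at h7
    linarith [hβ n]
  have hργd : ∀ m n : ℕ, (n : ℝ) - (D + dist o ((β m)⁻¹ • o)) ≤
      dist o (β m • (γ n)⁻¹ • o) := by
    intro m n
    have e : dist o (β m • (γ n)⁻¹ • o) = dist ((β m)⁻¹ • o) ((γ n)⁻¹ • o) := by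
      rw [← dist_smul (β m) ((β m)⁻¹ • o) ((γ n)⁻¹ • o), smul_inv_smul]
    rw [e]
    have h7 := dist_triangle o ((β m)⁻¹ • o) ((γ n)⁻¹ • o)
    linarith [hγd n]
  obtain ⟨η₁, hη₁, hη₁'⟩ := h4 X hX o (fun n => (γ n)⁻¹ • o) (tend hγd)
  obtain ⟨η₂, hη₂, hη₂'⟩ := h4 X hX o (fun n => (β n)⁻¹ • o) (tend hβd)
  have hρ := fun m : ℕ => h4 X hX o (fun n => β m • (γ n)⁻¹ • o) (tend (hργd m))
  choose ρ hρ hρ' using hρ
  obtain ⟨c₃, hc₃, hc₃'⟩ := h4 X hX o (fun m => ρ m m) (tend (B := 0) (fun m => by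
    rw [ray_dist (hρ m) (Nat.cast_nonneg m)]
    linarith))
  have hc₃'' : ∀ t ε : ℝ, 0 ≤ t → 0 < ε → ∀ᶠ m in (hyperfilter ℕ : Filter ℕ),
      dist (ρ m t) (c₃ t) ≤ ε := by
    intro t ε ht hε
    have h5 : ∀ᶠ m : ℕ in (hyperfilter ℕ : Filter ℕ), t ≤ (m : ℝ) :=
      Nat.hyperfilter_le_atTop (tendsto_natCast_atTop_atTop.eventually_ge_atTop t)
    filter_upwards [h5, hc₃' t ε ht hε] with m hm h6
    exact h6 _ (on_ray (hρ m) ht hm)
  refine ⟨η₁, η₂, c₃, hη₁, hη₂, hc₃, ?_, ?_, ?_, ?_⟩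
  · intro t ht
    exact dual1 h2 hX hc₁ γ D hγ t ht _ (hη₁' t 1 ht.le one_pos)
  · intro t ht
    exact dual1 h2 hX hc₂ β D hβ t ht _ (hη₂' t 1 ht.le one_pos)
  · intro t ht
    obtain ⟨m, hm⟩ := (hc₃'' t (1 / 2) ht.le (by norm_num)).exists
    refine dual1 h2 hX hc₁ (fun n => γ n * (β m)⁻¹) (dist o ((β m)⁻¹ • o) + D) ?_ t ht _ ?_
    · intro n
      have h5 := dist_triangle ((γ n * (β m)⁻¹) • o) (γ n • o) (c₁ n)
      rw [mul_smul, dist_smul, dist_comm _ o] at h5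
      rw [mul_smul]
      linarith [hγ n]
    · filter_upwards [hρ' m t (1 / 2) ht.le (by norm_num)] with n hn y hy
      rw [mul_inv_rev, inv_inv, mul_smul] at hy
      have h5 := hn y hy
      have h6 := dist_triangle y (ρ m t) (c₃ t)
      linarith
  · rintro ⟨K₀, hK₀⟩ t ht
    have hK0 : 0 ≤ K₀ := by
      obtain ⟨m, _, hm⟩ := hK₀ 0 le_rfl
      exact dist_nonneg.trans hm
    -- the main estimate
    have hmain : ∀ T : ℝ, K₀ + 2 ≤ T → dist (η₁ T) (η₂ T) ^ 2 ≤ (8 * K₀ + 33) * T := by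
      intro T hT
      have hT0 : 0 ≤ T := by linarith
      obtain ⟨m, ⟨⟨h5, h6⟩, h7⟩, h8⟩ := ((((tendsto_atTop.1 (tend hβd) T).and
        (near h2 hX hc₂ (fun n => β n • o) D hβ T 1 hT0 one_pos)).and
        (hη₂' T 1 hT0 one_pos)).and (hc₃'' T 1 hT0 one_pos)).exists
      obtain ⟨n, ⟨⟨k1, k2⟩, k3⟩, k4⟩ := ((((tendsto_atTop.1 (tend (hργd m)) T).and
        (tendsto_atTop.1 (tend hγd) T)).and (hρ' m T 1 hT0 one_pos)).and
        (hη₁' T 1 hT0 one_pos)).exists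
      obtain ⟨a, ha⟩ := (h1 X hX).1 o (β m • o) T hT0 (by rw [← hinv]; exact h5)
      obtain ⟨a', ha'⟩ := (h1 X hX).1 o (β m • (γ n)⁻¹ • o) T hT0 k1
      obtain ⟨b, hb⟩ := (h1 X hX).1 o ((β m)⁻¹ • o) T hT0 h5
      obtain ⟨b', hb'⟩ := (h1 X hX).1 o ((γ n)⁻¹ • o) T hT0 k2
      have hb1 := on_smul (β m) hb
      rw [smul_inv_smul] at hb1
      have hb1' := on_smul (β m) hb'
      have h9 := h3 X hX o (β m • o) (β m • (γ n)⁻¹ • o) T a a' _ _ ha ha' hb1 hb1'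
      rw [dist_smul] at h9
      have d1 := h6 a ha
      have d2 := k3 a' ha'
      have d3 := h7 b hb
      have d4 := k4 b' hb'
      have x1 : dist (c₃ T) (c₂ T) ≤ dist a a' + 3 := by
        have e1 := dist_triangle (c₃ T) (ρ m T) (c₂ T)
        have e2 := dist_triangle (ρ m T) a' (c₂ T)
        have e3 := dist_triangle a' a (c₂ T)
        rw [dist_comm (c₃ T) (ρ m T)] at e1
        rw [dist_comm (ρ m T) a'] at e2
        rw [dist_comm a' a] at e3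
        linarith
      have x2 : dist (η₁ T) (η₂ T) ≤ dist b b' + 2 := by
        have e1 := dist_triangle (η₁ T) b' (η₂ T)
        have e2 := dist_triangle b' b (η₂ T)
        rw [dist_comm (η₁ T) b'] at e1
        rw [dist_comm b' b] at e2
        linarith
      obtain ⟨x, hx1, hx2⟩ := hK₀ T hT0
      have x3 : 2 * T - 2 * K₀ ≤ dist (c₃ T) (c₂ T) := by
        have e1 := dist_triangle o x (c₃ T)
        have e2 := dist_triangle o x (c₂ T)
        rw [ray_dist hc₃ hT0, dist_comm x (c₃ T)] at e1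
        rw [ray_dist hc₂ hT0] at e2
        linarith
      have u0 : 0 ≤ dist a a' := dist_nonneg
      have v0 : 0 ≤ dist b b' := dist_nonneg
      have w0 : 0 ≤ dist (η₁ T) (η₂ T) := dist_nonneg
      generalize dist a a' = U at *
      generalize dist b b' = V at *
      generalize dist (η₁ T) (η₂ T) = W at *
      generalize dist (c₃ T) (c₂ T) = Z at *
      have v2 : V ≤ 2 * T := by nlinarith
      have u1 : 2 * T - (2 * K₀ + 3) ≤ U := by linarith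
      have u2 : (2 * T - (2 * K₀ + 3)) ^ 2 ≤ U ^ 2 := pow_le_pow_left₀ (by linarith) u1 2
      have w1 : W ^ 2 ≤ (V + 2) ^ 2 := pow_le_pow_left₀ w0 x2 2
      nlinarith [sq_nonneg (2 * K₀ + 3)]
    -- conclusion
    by_contra hne
    have hpos : 0 < dist (η₁ t) (η₂ t) := dist_pos.2 hne
    set δ := dist (η₁ t) (η₂ t) ^ 2 with hδ
    have hδ0 : 0 < δ := by positivity
    obtain ⟨T, hT⟩ : ∃ T : ℝ, T = K₀ + 2 + t + (t ^ 2 * (8 * K₀ + 33)) / δ := ⟨_, rfl⟩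
    have hq0 : 0 ≤ (t ^ 2 * (8 * K₀ + 33)) / δ := by positivity
    have hT1 : K₀ + 2 ≤ T := by linarith
    have hT2 : t ≤ T := by linarith
    have hT3 : 0 < T := by linarith
    have h5 := hmain T hT1
    have h6 := (h2 X hX).1 o (η₁ T) (η₂ T) t (η₁ t) (η₂ t) (on_ray hη₁ ht hT2)
      (on_ray hη₂ ht hT2)
    rw [ray_dist hη₁ hT3.le, ray_dist hη₂ hT3.le, sub_self] at h6
    have h7 : δ * (T * T) ≤ t ^ 2 * ((8 * K₀ + 33) * T) := by
      refine h6.trans ?_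
      apply mul_le_mul_of_nonneg_left _ (sq_nonneg t)
      linarith
    have h8 : δ * T ≤ t ^ 2 * (8 * K₀ + 33) := by
      by_contra h
      push Not at h
      have := mul_lt_mul_of_pos_right h hT3
      linarith
    have h9 : δ * ((t ^ 2 * (8 * K₀ + 33)) / δ) = t ^ 2 * (8 * K₀ + 33) :=
      mul_div_cancel₀ _ hδ0.ne'
    have h10 : δ * T = δ * (K₀ + 2 + t) + t ^ 2 * (8 * K₀ + 33) := by
      rw [hT, mul_add, h9]
    have h11 : 0 < δ * (K₀ + 2 + t) := by positivity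
    linarith

end Pool.Agent.Y73.EL
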